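import Pool.Agent.Q176.SI.RegB

/-!
# Regulators of linear characters are determinants of logarithms of units
-/

set_option autoImplicit false
set_option linter.unusedSectionVars false

namespace Pool.Agent.Q176.SI

open NumberField IsDedekindDomain Pool.Agent.Q20.RS Pool.Agent.Q20.SI
open Representation (IntertwiningMap)

section homd
variable {F M : Type} [Field F] [NumberField F] [Field M] [NumberField M] [Algebra F M]
  {T : Finset (HeightOneSpectrum (𝓞 M))}

/-- the coordinate functional -/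
def eps : Module.Dual ℂ (Fin 1 → ℂ) := LinearMap.proj 0

theorem dual_eq (φ : Module.Dual ℂ (Fin 1 → ℂ)) : φ = φ (fun _ => 1) • eps := by
  refine LinearMap.ext fun x => ?_
  have h1 : x = x 0 • (fun _ => (1 : ℂ)) := by
    funext i
    obtain rfl : i = 0 := Subsingleton.elim _ _
    simp
  conv_lhs => rw [h1, map_smul]
  change x 0 * φ (fun _ => 1) = φ (fun _ => 1) * x 0
  ring

theorem dual_act {χ : (M ≃ₐ[F] M) →* ℂˣ} (ρ : Representation ℂ (M ≃ₐ[F] M) (Fin 1 → ℂ))
    (hρ : ∀ g, ρ.character g = cf χ g) (g : M ≃ₐ[F] M) (φ : Module.Dual ℂ (Fin 1 → ℂ)) :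
    ρ.dual g φ = (cf χ g)⁻¹ • φ := by
  refine LinearMap.ext fun x => ?_
  change φ (ρ g⁻¹ x) = (cf χ g)⁻¹ * φ x
  rw [rep_one_dim, hρ, cf_inv, map_smul, smul_eq_mul]

/-- evaluation at the coordinate functional gives vectors of the eigenspace -/
theorem homd_eig (hT : Stable F T) {χ : (M ≃ₐ[F] M) →* ℂˣ}
    (ρ : Representation ℂ (M ≃ₐ[F] M) (Fin 1 → ℂ)) (hρ : ∀ g, ρ.character g = cf χ g)
    (f : IntertwiningMap ρ.dual (XRep hT)) : Eig hT χ (f eps) := by
  intro h
  rw [← f.isIntertwining, dual_act ρ hρ, map_smul]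

/-- the homomorphism with a given value -/
noncomputable def homdOf (hT : Stable F T) {χ : (M ≃ₐ[F] M) →* ℂˣ}
    (ρ : Representation ℂ (M ≃ₐ[F] M) (Fin 1 → ℂ)) (hρ : ∀ g, ρ.character g = cf χ g)
    (x : XC T) (hx : Eig hT χ x) : IntertwiningMap ρ.dual (XRep hT) :=
  ⟨LinearMap.toSpanSingleton ℂ (XC T) x ∘ₗ Module.Dual.eval ℂ (Fin 1 → ℂ) (fun _ => 1), by
    intro g
    refine LinearMap.ext fun φ => ?_
    change (ρ.dual g φ) (fun _ => 1) • x = XRep hT g (φ (fun _ => 1) • x)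
    rw [dual_act ρ hρ, map_smul, hx g, smul_comm, LinearMap.smul_apply, smul_eq_mul, mul_comm,
      mul_smul, smul_comm]⟩

theorem homdOf_eps (hT : Stable F T) {χ : (M ≃ₐ[F] M) →* ℂˣ}
    (ρ : Representation ℂ (M ≃ₐ[F] M) (Fin 1 → ℂ)) (hρ : ∀ g, ρ.character g = cf χ g)
    (x : XC T) (hx : Eig hT χ x) : homdOf hT ρ hρ x hx eps = x := by
  change (eps (fun _ => 1) : ℂ) • x = x
  change (1 : ℂ) • x = x
  rw [one_smul]

/-- the values at the representatives -/
noncomputable def evl (hT : Stable F T) (ρ : Representation ℂ (M ≃ₐ[F] M) (Fin 1 → ℂ)) {ι : Type}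
    (w : ι → Pl M) : HomD ρ (XRep hT) →ₗ[ℂ] (ι → ℂ) where
  toFun := fun f i => (IntertwiningMap.toLinearMap f eps).fn (w i)
  map_add' := fun _ _ => rfl
  map_smul' := fun _ _ => rfl

theorem evl_bij (hT : Stable F T) {χ : (M ≃ₐ[F] M) →* ℂˣ} (hχ : ∃ g, χ g ≠ 1)
    (ρ : Representation ℂ (M ≃ₐ[F] M) (Fin 1 → ℂ)) (hρ : ∀ g, ρ.character g = cf χ g) {ι : Type}
    [Fintype ι] [DecidableEq ι] {w : ι → Pl M} (hw : Reps χ T w) :
    Function.Bijective (evl hT ρ w) := by
  constructor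
  · rw [injective_iff_map_eq_zero]
    intro f hf
    have h1 : (IntertwiningMap.toLinearMap f eps : XC T) = 0 :=
      (homd_eig hT ρ hρ f).zero_of hw fun i => congrFun hf i
    refine IntertwiningMap.toLinearMap_injective _ _ (LinearMap.ext fun φ => ?_)
    change IntertwiningMap.toLinearMap f φ = 0
    rw [dual_eq φ, map_smul, h1, smul_zero]
  · intro y
    have hx : Eig hT χ (∑ j, ((stb F (w j) : ℂ)⁻¹ * y j) • prj hT (cf χ) (yv hT (hw.mem j))) := by
      intro h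
      rw [map_sum, Finset.smul_sum]
      refine Finset.sum_congr rfl fun j _ => ?_
      rw [map_smul, prj_eig, smul_comm]
    refine ⟨homdOf hT ρ hρ _ hx, funext fun i => ?_⟩
    change (homdOf hT ρ hρ _ hx eps).fn (w i) = y i
    rw [homdOf_eps, fn_sum]
    have h2 : ∀ j, (((stb F (w j) : ℂ)⁻¹ * y j) •
        prj hT (cf χ) (yv hT (hw.mem j))).fn (w i) = if i = j then y i else 0 := by
      intro j
      rw [fn_smul, prj_yv hT hχ hw]
      split_ifs with hij
      · subst hij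
        rw [mul_comm, ← mul_assoc, mul_inv_cancel₀ (stb_ne _), one_mul]
      · rw [mul_zero]
    rw [Finset.sum_congr rfl fun j _ => h2 j, Finset.sum_ite_eq, if_pos (Finset.mem_univ _)]

end homd

section main
variable {F M : Type} [Field F] [NumberField F] [Field M] [NumberField M] [Algebra F M]
  {T : Finset (HeightOneSpectrum (𝓞 M))}

/-- a Stark map in the coordinates given by the values at the representatives -/
theorem theta_val (hT : Stable F T) (θ : IntertwiningMap (XRep hT) (XRep hT))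
    {χ : (M ≃ₐ[F] M) →* ℂˣ} (hχ : ∃ g, χ g ≠ 1) {ι : Type} [Fintype ι] [DecidableEq ι]
    {w : ι → Pl M} (hw : Reps χ T w) (m : ι → ℕ) (hm : ∀ j, 0 < m j) (α : ι → M)
    (hα : ∀ j v, (m j : ℂ) * (θ (yv hT (hw.mem j))).fn v = ((-logv (α j) v : ℝ) : ℂ))
    {x : XC T} (hx : Eig hT χ x) (i : ι) :
    (θ x).fn (w i) = ∑ j, (-((stb F (w j) : ℂ) * (m j : ℂ))⁻¹ * ell χ (α j) (w i)) * x.fn (w j) := by
  have h1 := hx.expand hχ hw
  have h2 : θ x = ∑ j, ((stb F (w j) : ℂ)⁻¹ * x.fn (w j)) •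
      prj hT (cf χ) (θ (yv hT (hw.mem j))) := by
    conv_lhs => rw [h1]
    rw [map_sum]
    refine Finset.sum_congr rfl fun j _ => ?_
    rw [map_smul, prj_map]
  rw [h2, fn_sum]
  refine Finset.sum_congr rfl fun j _ => ?_
  have h3 := prj_log hT χ (hα j) (w i)
  have h4 : (m j : ℂ) ≠ 0 := by exact_mod_cast (hm j).ne'
  have h5 : (prj hT (cf χ) (θ (yv hT (hw.mem j)))).fn (w i) = (m j : ℂ)⁻¹ * -ell χ (α j) (w i) := by
    rw [← h3, ← mul_assoc, inv_mul_cancel₀ h4, one_mul]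
  rw [fn_smul, h5, mul_inv]
  ring

theorem reg : S_REG := by
  intro F M _ _ _ _ _ _ T hT θ χ hχ ι _ _ w hw
  have h1 : ∀ j, LogUnit (θ.map (yv hT (hw.mem j))) := fun j =>
    (θ.rational _).1 (yv_rational hT (hw.mem j))
  choose m hm α hα0 hα1 hα2 using h1
  refine ⟨∏ j, -((stb F (w j) : ℚ) * (m j : ℚ))⁻¹, α, ?_, fun j => ⟨hα0 j, hα1 j⟩, ?_, ?_⟩
  · refine Finset.prod_ne_zero_iff.2 fun j _ => neg_ne_zero.2 (inv_ne_zero (mul_ne_zero ?_ ?_))
    · exact_mod_cast (stb_pos (F := F) (w j)).ne'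
    · exact_mod_cast (hm j).ne'
  · intro χ' hχ' n ρ hρ
    have hn : n = 1 := by
      have h2 := hρ 1
      rw [Representation.char_one] at h2
      have h3 : cf χ' (1 : M ≃ₐ[F] M) = 1 := cf_eq_one (map_one χ')
      rw [h3, Module.finrank_fin_fun] at h2
      exact_mod_cast h2
    subst hn
    have hne : ∃ g, χ' g ≠ 1 := by
      obtain ⟨g, hg⟩ := hχ
      exact ⟨g, fun h => hg ((hχ' g).1 h)⟩
    have hw' : Reps χ' T w := Reps.change hχ' hw
    have h4 : regul ρ (XRep hT) θ.map = (Matrix.of fun i j =>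
        -((stb F (w j) : ℂ) * (m j : ℂ))⁻¹ * ell χ' (α j) (w i) : Matrix ι ι ℂ).det := by
      unfold regul
      refine det_of_equiv (LinearEquiv.ofBijective (evl hT ρ w) (evl_bij hT hne ρ hρ hw')) _ _ ?_
      intro f
      funext i
      exact theta_val hT θ.map hne hw' m hm α hα2 (homd_eig hT ρ hρ f) i
    have h5 : (Matrix.of fun i j => -((stb F (w j) : ℂ) * (m j : ℂ))⁻¹ * ell χ' (α j) (w i) :
        Matrix ι ι ℂ) = Matrix.of fun i j => (-((stb F (w j) : ℂ) * (m j : ℂ))⁻¹) *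
          ellM χ' α w i j := rfl
    rw [h4, h5, Matrix.det_mul_row]
    push_cast
    rfl
  · intro u hu
    obtain ⟨x, hx⟩ := θ.bijective.2 (⟨_, unt_mem hu⟩ : XC T)
    have h2 : ∀ v, (θ.map x).fn v = ((-logv u v : ℝ) : ℂ) := fun v => by
      rw [hx]
      rfl
    have h3 : Rational x := (θ.rational x).2 ⟨1, one_pos, u, hu.1, hu.2, fun v => by
      rw [h2, Nat.cast_one, one_mul]⟩
    choose q hq using h3
    refine ⟨fun j g => ((stb F (w j) : ℚ) * (m j : ℚ))⁻¹ * q (pact g⁻¹ (w j)), ?_⟩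
    intro χ' hχ' i
    have hne : ∃ g, χ' g ≠ 1 := by
      obtain ⟨g, hg⟩ := hχ
      exact ⟨g, fun h => hg ((hχ' g).1 h)⟩
    have hw' : Reps χ' T w := Reps.change hχ' hw
    have h4 := theta_val hT θ.map hne hw' m hm α hα2 (prj_eig hT χ' x) i
    have h5 := prj_log (m := 1) (u := u) hT χ' (x := θ.map x) (fun v => by
      rw [h2, Nat.cast_one, one_mul]) (w i)
    rw [Nat.cast_one, one_mul, ← prj_map, h4] at h5
    rw [← neg_neg (ell χ' u (w i)), ← h5, ← Finset.sum_neg_distrib]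
    refine Finset.sum_congr rfl fun j _ => ?_
    have h6 : ∑ g, ((((stb F (w j) : ℚ) * (m j : ℚ))⁻¹ * q (pact g⁻¹ (w j)) : ℚ) : ℂ) * cf χ' g =
        ((stb F (w j) : ℂ) * (m j : ℂ))⁻¹ * (prj hT (cf χ') x).fn (w j) := by
      rw [prj_fn, Finset.mul_sum]
      refine Finset.sum_congr rfl fun g _ => ?_
      rw [hq]
      push_cast
      ring
    rw [h6]
    ring

end main

end Pool.Agent.Q176.SI
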