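import Pool.Agent.Q20.SI.Ord

/-!
# Regulators of linear characters: the eigenspace of a linear character
-/

set_option autoImplicit false
set_option linter.unusedSectionVars false

namespace Pool.Agent.Q176.SI

open NumberField IsDedekindDomain Pool.Agent.Q20.RS Pool.Agent.Q20.SI
open Representation (IntertwiningMap)

section val
variable {M : Type} [Field M] [NumberField M] {T : Finset (HeightOneSpectrum (𝓞 M))}

/-- the values as a linear map -/
noncomputable def fnL (T : Finset (HeightOneSpectrum (𝓞 M))) : XC T →ₗ[ℂ] (Pl M → ℂ) := (XS T).subtype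

theorem fnL_apply (x : XC T) : fnL T x = x.fn := rfl

theorem xc_ext {x y : XC T} (h : ∀ v, x.fn v = y.fn v) : x = y := Subtype.ext (funext h)

theorem fn_add (x y : XC T) (v : Pl M) : (x + y).fn v = x.fn v + y.fn v := rfl

theorem fn_smul (c : ℂ) (x : XC T) (v : Pl M) : (c • x).fn v = c * x.fn v := rfl

theorem fn_zero (v : Pl M) : (0 : XC T).fn v = 0 := rfl

theorem fn_sum {κ : Type} (s : Finset κ) (x : κ → XC T) (v : Pl M) :
    (∑ k ∈ s, x k).fn v = ∑ k ∈ s, (x k).fn v := by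
  have h := congrFun (map_sum (fnL T) x s) v
  rw [Finset.sum_apply] at h
  exact h

theorem fn_out (x : XC T) {v : Pl M} (h : ¬ InPl T v) : x.fn v = 0 := by
  rcases v with P | v
  · exact x.2.1 P h
  · exact absurd trivial h

/-- the sum over the places -/
noncomputable def tot (T : Finset (HeightOneSpectrum (𝓞 M))) : (Pl M → ℂ) →ₗ[ℂ] ℂ where
  toFun := fun a => ∑ w ∈ T, a (.inl w) + ∑ v : InfinitePlace M, a (.inr v)
  map_add' := fun a b => by
    simp only [Pi.add_apply, Finset.sum_add_distrib]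
    ring
  map_smul' := fun c a => by
    simp only [Pi.smul_apply, smul_eq_mul, ← Finset.mul_sum, RingHom.id_apply]
    ring

theorem tot_apply (a : Pl M → ℂ) :
    tot T a = ∑ w ∈ T, a (.inl w) + ∑ v : InfinitePlace M, a (.inr v) := rfl

variable {F : Type} [Field F] [NumberField F] [Algebra F M]

theorem tot_act (hT : Stable F T) (g : M ≃ₐ[F] M) (a : Pl M → ℂ) :
    tot T (fun v => a (pact g⁻¹ v)) = tot T a := by
  have hinv : ∀ w, pra g (pra g⁻¹ w) = w := fun w => by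
    rw [← pra_mul, mul_inv_cancel, pra_one]
  have hinv' : ∀ w, pra g⁻¹ (pra g w) = w := fun w => by
    rw [← pra_mul, inv_mul_cancel, pra_one]
  have h1 : ∑ w ∈ T, a (.inl (pra g⁻¹ w)) = ∑ w ∈ T, a (.inl w) :=
    Finset.sum_nbij' (pra g⁻¹) (pra g) (fun w hw => hT _ w hw)
      (fun w hw => hT _ w hw) (fun w _ => hinv w) (fun w _ => hinv' w) (fun w _ => rfl)
  have h2 : ∑ v : InfinitePlace M, a (.inr (g⁻¹ • v)) = ∑ v : InfinitePlace M, a (.inr v) :=
    Equiv.sum_comp (MulAction.toPerm g⁻¹) fun v => a (.inr v)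
  rw [tot_apply, tot_apply, ← h1, ← h2]
  rfl

theorem pact_inv_pact (g : M ≃ₐ[F] M) (v : Pl M) : pact g⁻¹ (pact g v) = v := by
  rw [← pact_mul, inv_mul_cancel, pact_one]

theorem pact_pact_inv (g : M ≃ₐ[F] M) (v : Pl M) : pact g (pact g⁻¹ v) = v := by
  rw [← pact_mul, mul_inv_cancel, pact_one]

theorem inPl_pact (hT : Stable F T) (g : M ≃ₐ[F] M) {v : Pl M} (h : InPl T v) :
    InPl T (pact g v) := by
  rcases v with P | v
  · exact hT g P h
  · trivial

theorem inPl_pact_iff (hT : Stable F T) (g : M ≃ₐ[F] M) (v : Pl M) :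
    InPl T (pact g v) ↔ InPl T v := by
  constructor
  · intro h
    have h1 := inPl_pact hT g⁻¹ h
    rwa [pact_inv_pact] at h1
  · exact inPl_pact hT g

open scoped Classical in
/-- the indicator of a place, made of sum zero by subtracting the mean over the orbit -/
noncomputable def yfn (F : Type) [Field F] [NumberField F] [Algebra F M] (w : Pl M) (v : Pl M) : ℂ :=
  (if v = w then 1 else 0) - (Fintype.card (M ≃ₐ[F] M) : ℂ)⁻¹ *
    ∑ g : M ≃ₐ[F] M, if pact g⁻¹ v = w then 1 else 0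

theorem card_ne : (Fintype.card (M ≃ₐ[F] M) : ℂ) ≠ 0 := by
  exact_mod_cast Fintype.card_ne_zero

theorem yfn_mem (hT : Stable F T) {w : Pl M} (hw : InPl T w) : yfn F w ∈ XS T := by
  classical
  refine ⟨fun P hP => ?_, ?_⟩
  · have h1 : ∀ g : M ≃ₐ[F] M, ¬ pact g⁻¹ (.inl P) = w := by
      intro g hg
      rw [← hg, inPl_pact_iff hT] at hw
      exact hP hw
    have h2 : ¬ (.inl P : Pl M) = w := by
      intro h
      rw [← h] at hw
      exact hP hw
    unfold yfn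
    rw [if_neg h2, Finset.sum_eq_zero fun g _ => if_neg (h1 g), mul_zero, sub_zero]
  · have h1 : yfn F w = (fun v => if v = w then (1 : ℂ) else 0) -
        (Fintype.card (M ≃ₐ[F] M) : ℂ)⁻¹ • ∑ g : M ≃ₐ[F] M,
          (fun v => (fun v => if v = w then (1 : ℂ) else 0) (pact g⁻¹ v)) := by
      funext v
      simp only [Pi.sub_apply, Pi.smul_apply, Finset.sum_apply, smul_eq_mul]
      rfl
    have h2 : ∀ g : M ≃ₐ[F] M, tot T (fun v => (fun v => if v = w then (1 : ℂ) else 0) (pact g⁻¹ v)) =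
        tot T (fun v => if v = w then (1 : ℂ) else 0) := fun g =>
      tot_act hT g (fun v => if v = w then (1 : ℂ) else 0)
    change tot T (yfn F w) = 0
    rw [h1, map_sub, map_smul, map_sum, Finset.sum_congr rfl fun g _ => h2 g,
      Finset.sum_const, Finset.card_univ, nsmul_eq_mul, smul_eq_mul, ← mul_assoc,
      inv_mul_cancel₀ (card_ne (F := F)), one_mul, sub_self]

/-- `[w] - |G|⁻¹ ∑_g [g w]` -/
noncomputable def yv (hT : Stable F T) {w : Pl M} (hw : InPl T w) : XC T := ⟨yfn F w, yfn_mem hT hw⟩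

theorem yv_fn (hT : Stable F T) {w : Pl M} (hw : InPl T w) (v : Pl M) :
    (yv hT hw).fn v = yfn F w v := rfl

theorem yv_rational (hT : Stable F T) {w : Pl M} (hw : InPl T w) : Rational (yv hT hw) := by
  classical
  intro v
  refine ⟨(if v = w then 1 else 0) - (Fintype.card (M ≃ₐ[F] M) : ℚ)⁻¹ *
    ∑ g : M ≃ₐ[F] M, if pact g⁻¹ v = w then 1 else 0, ?_⟩
  rw [yv_fn]
  unfold yfn
  have h1 : ∀ (p : Prop) [Decidable p], ((if p then 1 else 0 : ℚ) : ℂ) = if p then 1 else 0 := by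
    intro p _
    split_ifs <;> norm_num
  push_cast
  simp only [h1]

/-- `x ↦ ∑_g ψ(g) g x` -/
noncomputable def prj (hT : Stable F T) (ψ : (M ≃ₐ[F] M) → ℂ) : XC T →ₗ[ℂ] XC T :=
  ∑ g, ψ g • (XRep hT g)

theorem prj_apply (hT : Stable F T) (ψ : (M ≃ₐ[F] M) → ℂ) (x : XC T) :
    prj hT ψ x = ∑ g, ψ g • XRep hT g x := by
  unfold prj
  rw [LinearMap.sum_apply]
  rfl

theorem rep_fn (hT : Stable F T) (g : M ≃ₐ[F] M) (x : XC T) (v : Pl M) :
    (XRep hT g x).fn v = x.fn (pact g⁻¹ v) := rfl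

theorem prj_fn (hT : Stable F T) (ψ : (M ≃ₐ[F] M) → ℂ) (x : XC T) (v : Pl M) :
    (prj hT ψ x).fn v = ∑ g, ψ g * x.fn (pact g⁻¹ v) := by
  rw [prj_apply, fn_sum]
  rfl

theorem prj_map (hT : Stable F T) (ψ : (M ≃ₐ[F] M) → ℂ)
    (θ : IntertwiningMap (XRep hT) (XRep hT)) (x : XC T) : θ (prj hT ψ x) = prj hT ψ (θ x) := by
  rw [prj_apply, prj_apply, map_sum]
  refine Finset.sum_congr rfl fun g _ => ?_
  rw [map_smul, θ.isIntertwining]

theorem cf_mul (χ : (M ≃ₐ[F] M) →* ℂˣ) (g h : M ≃ₐ[F] M) : cf χ (g * h) = cf χ g * cf χ h := by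
  unfold cf
  rw [map_mul, Units.val_mul]

theorem cf_ne (χ : (M ≃ₐ[F] M) →* ℂˣ) (g : M ≃ₐ[F] M) : cf χ g ≠ 0 := (χ g).ne_zero

theorem cf_inv (χ : (M ≃ₐ[F] M) →* ℂˣ) (g : M ≃ₐ[F] M) : cf χ g⁻¹ = (cf χ g)⁻¹ := by
  unfold cf
  rw [map_inv, Units.val_inv_eq_inv_val]

theorem cf_eq_one {χ : (M ≃ₐ[F] M) →* ℂˣ} {g : M ≃ₐ[F] M} (h : χ g = 1) : cf χ g = 1 := by
  unfold cf
  rw [h, Units.val_one]

theorem cf_ne_one {χ : (M ≃ₐ[F] M) →* ℂˣ} {g : M ≃ₐ[F] M} (h : χ g ≠ 1) : cf χ g ≠ 1 :=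
  fun h1 => h (Units.ext h1)

theorem cf_sum {χ : (M ≃ₐ[F] M) →* ℂˣ} (h : ∃ g, χ g ≠ 1) : ∑ g, cf χ g = 0 := by
  obtain ⟨g₀, hg₀⟩ := h
  have h1 : ∑ g, cf χ g = cf χ g₀ * ∑ g, cf χ g := by
    rw [Finset.mul_sum]
    symm
    refine Finset.sum_equiv (Equiv.mulLeft g₀) (fun _ => by simp) fun g _ => ?_
    exact (cf_mul χ g₀ g).symm
  have h2 : (cf χ g₀ - 1) * ∑ g, cf χ g = 0 := by
    rw [sub_mul, one_mul, ← h1, sub_self]
  exact (mul_eq_zero.1 h2).resolve_left (sub_ne_zero.2 (cf_ne_one hg₀))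

/-- `x` is in the eigenspace of `χ⁻¹` -/
def Eig (hT : Stable F T) (χ : (M ≃ₐ[F] M) →* ℂˣ) (x : XC T) : Prop :=
  ∀ h, XRep hT h x = (cf χ h)⁻¹ • x

theorem prj_eig (hT : Stable F T) (χ : (M ≃ₐ[F] M) →* ℂˣ) (x : XC T) :
    Eig hT χ (prj hT (cf χ) x) := by
  intro h
  rw [prj_apply, map_sum, Finset.smul_sum]
  refine Finset.sum_equiv (Equiv.mulLeft h) (fun _ => by simp) fun g _ => ?_
  change XRep hT h (cf χ g • XRep hT g x) = (cf χ h)⁻¹ • cf χ (h * g) • XRep hT (h * g) x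
  rw [map_smul, map_mul, cf_mul, smul_smul, ← mul_assoc, inv_mul_cancel₀ (cf_ne χ h), one_mul]
  rfl

theorem Eig.fn {hT : Stable F T} {χ : (M ≃ₐ[F] M) →* ℂˣ} {x : XC T} (hx : Eig hT χ x)
    (h : M ≃ₐ[F] M) (v : Pl M) : x.fn (pact h v) = cf χ h * x.fn v := by
  have h1 : (XRep hT h x).fn (pact h v) = ((cf χ h)⁻¹ • x).fn (pact h v) := by rw [hx h]
  rw [rep_fn, pact_inv_pact, fn_smul] at h1
  rw [h1, ← mul_assoc, mul_inv_cancel₀ (cf_ne χ h), one_mul]

theorem Eig.zero_of {hT : Stable F T} {χ : (M ≃ₐ[F] M) →* ℂˣ} {x : XC T} (hx : Eig hT χ x)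
    {ι : Type} {w : ι → Pl M} (hw : Reps χ T w) (h0 : ∀ i, x.fn (w i) = 0) : x = 0 := by
  refine xc_ext fun v => ?_
  rw [fn_zero]
  by_cases hv : InPl T v
  · by_cases ht : Triv χ v
    · obtain ⟨i, g, rfl⟩ := hw.cover v hv ht
      rw [hx.fn, h0, mul_zero]
    · unfold Triv at ht
      push Not at ht
      obtain ⟨g, hg, hg1⟩ := ht
      have h1 := hx.fn g v
      rw [hg] at h1
      have h2 : (cf χ g - 1) * x.fn v = 0 := by
        rw [sub_mul, one_mul, ← h1, sub_self]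
      exact (mul_eq_zero.1 h2).resolve_left (sub_ne_zero.2 (cf_ne_one hg1))
  · exact fn_out x hv

theorem Reps.change {χ χ' : (M ≃ₐ[F] M) →* ℂˣ} (h : ∀ g, χ' g = 1 ↔ χ g = 1) {ι : Type}
    {w : ι → Pl M} (hw : Reps χ T w) : Reps χ' T w := by
  have ht : ∀ v, Triv χ' v ↔ Triv χ v := fun v =>
    forall_congr' fun g => imp_congr_right fun _ => h g
  exact ⟨hw.mem, fun i => (ht _).2 (hw.triv i), fun v h1 h2 => hw.cover v h1 ((ht v).1 h2), hw.inj⟩

open scoped Classical in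
/-- the order of the stabiliser -/
noncomputable def stb (F : Type) [Field F] [NumberField F] [Algebra F M] (w : Pl M) : ℕ :=
  (Finset.univ.filter fun g : M ≃ₐ[F] M => pact g⁻¹ w = w).card

theorem stb_pos (w : Pl M) : 0 < stb F w := by
  classical
  unfold stb
  refine Finset.card_pos.2 ⟨1, ?_⟩
  rw [Finset.mem_filter]
  exact ⟨Finset.mem_univ _, by rw [inv_one, pact_one]⟩

theorem stb_ne (w : Pl M) : (stb F w : ℂ) ≠ 0 := by
  exact_mod_cast (stb_pos (F := F) w).ne'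

theorem prj_yv (hT : Stable F T) {χ : (M ≃ₐ[F] M) →* ℂˣ} (hχ : ∃ g, χ g ≠ 1) {ι : Type}
    [DecidableEq ι] {w : ι → Pl M} (hw : Reps χ T w) (i j : ι) :
    (prj hT (cf χ) (yv hT (hw.mem j))).fn (w i) = if i = j then (stb F (w i) : ℂ) else 0 := by
  classical
  rw [prj_fn]
  have h1 : ∀ g : M ≃ₐ[F] M, ∑ h : M ≃ₐ[F] M, (if pact h⁻¹ (pact g⁻¹ (w i)) = w j then (1 : ℂ) else 0)
      = ∑ h : M ≃ₐ[F] M, (if pact h⁻¹ (w i) = w j then (1 : ℂ) else 0) := by
    intro g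
    refine Finset.sum_equiv (Equiv.mulLeft g) (fun _ => by simp) fun h _ => ?_
    rw [← pact_mul, ← mul_inv_rev]
    rfl
  have h2 : ∀ g : M ≃ₐ[F] M, cf χ g * (yv hT (hw.mem j)).fn (pact g⁻¹ (w i)) =
      cf χ g * (if pact g⁻¹ (w i) = w j then 1 else 0) - cf χ g *
        ((Fintype.card (M ≃ₐ[F] M) : ℂ)⁻¹ *
          ∑ h : M ≃ₐ[F] M, (if pact h⁻¹ (w i) = w j then (1 : ℂ) else 0)) := by
    intro g
    rw [yv_fn, ← h1 g, ← mul_sub]
    rfl
  rw [Finset.sum_congr rfl fun g _ => h2 g, Finset.sum_sub_distrib, ← Finset.sum_mul, cf_sum hχ,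
    zero_mul, sub_zero]
  split_ifs with hij
  · subst hij
    unfold stb
    rw [Finset.card_filter]
    push_cast
    refine Finset.sum_congr rfl fun g _ => ?_
    split_ifs with hg
    · have h3 : χ g = 1 := by
        have h4 := hw.triv i g⁻¹ hg
        rw [map_inv, inv_eq_one] at h4
        exact h4
      rw [cf_eq_one h3, one_mul]
    · rw [mul_zero]
  · refine Finset.sum_eq_zero fun g _ => ?_
    rw [if_neg fun h => hij (hw.inj i j g⁻¹ h), mul_zero]

/-- the value of a vector of the eigenspace is a combination of the values of the basis -/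
theorem Eig.expand {hT : Stable F T} {χ : (M ≃ₐ[F] M) →* ℂˣ} (hχ : ∃ g, χ g ≠ 1) {x : XC T}
    (hx : Eig hT χ x) {ι : Type} [Fintype ι] [DecidableEq ι] {w : ι → Pl M} (hw : Reps χ T w) :
    x = ∑ j, ((stb F (w j) : ℂ)⁻¹ * x.fn (w j)) • prj hT (cf χ) (yv hT (hw.mem j)) := by
  rw [← sub_eq_zero]
  have h1 : Eig hT χ (x - ∑ j, ((stb F (w j) : ℂ)⁻¹ * x.fn (w j)) •
      prj hT (cf χ) (yv hT (hw.mem j))) := by
    intro h
    rw [map_sub, hx h, map_sum, smul_sub, Finset.smul_sum]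
    congr 1
    refine Finset.sum_congr rfl fun j _ => ?_
    rw [map_smul, prj_eig, smul_comm]
  refine h1.zero_of hw fun i => ?_
  rw [sub_eq_add_neg, fn_add, ← neg_one_smul ℂ, fn_smul, fn_sum]
  have h2 : ∀ j, (((stb F (w j) : ℂ)⁻¹ * x.fn (w j)) •
      prj hT (cf χ) (yv hT (hw.mem j))).fn (w i) = if i = j then x.fn (w i) else 0 := by
    intro j
    rw [fn_smul, prj_yv hT hχ hw]
    split_ifs with hij
    · subst hij
      rw [mul_comm, ← mul_assoc, mul_inv_cancel₀ (stb_ne _), one_mul]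
    · rw [mul_zero]
  rw [Finset.sum_congr rfl fun j _ => h2 j, Finset.sum_ite_eq, if_pos (Finset.mem_univ _)]
  ring

end val

end Pool.Agent.Q176.SI
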