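import Pool.Agent.Q176.SI.RegA

/-!
# Regulators of linear characters: the product formula and determinants
-/

set_option autoImplicit false
set_option linter.unusedSectionVars false

namespace Pool.Agent.Q176.SI

open NumberField IsDedekindDomain Pool.Agent.Q20.RS Pool.Agent.Q20.SI
open Representation (IntertwiningMap)

section unit
variable {M : Type} [Field M] [NumberField M] {T : Finset (HeightOneSpectrum (𝓞 M))}

/-- the product formula for `T`-units -/
theorem unt_sum {u : M} (hu : IsUnt T u) :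
    ∑ w ∈ T, logv u (.inl w) + ∑ v : InfinitePlace M, logv u (.inr v) = 0 := by
  obtain ⟨hu0, hu1⟩ := hu
  have h1 := NumberField.prod_abs_eq_one hu0
  have h2 : ∏ᶠ w : FinitePlace M, w u = ∏ w ∈ T, NumberField.HeightOneSpectrum.adicAbv M w u := by
    have h3 : ∏ᶠ w : FinitePlace M, w u =
        ∏ᶠ w : HeightOneSpectrum (𝓞 M), (FinitePlace.equivHeightOneSpectrum.symm w) u :=
      (finprod_comp_equiv FinitePlace.equivHeightOneSpectrum.symm).symm
    have h4 : ∀ w : HeightOneSpectrum (𝓞 M), (FinitePlace.equivHeightOneSpectrum.symm w) u =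
        NumberField.HeightOneSpectrum.adicAbv M w u := by
      intro w
      rw [← FinitePlace.norm_embedding]
      rfl
    rw [h3, finprod_congr h4]
    refine finprod_eq_prod_of_mulSupport_subset _ fun w hw => ?_
    by_contra h5
    exact hw (hu1 w h5)
  rw [h2] at h1
  have h6 : ∀ w ∈ T, NumberField.HeightOneSpectrum.adicAbv M w u ≠ 0 := fun w _ =>
    (AbsoluteValue.ne_zero_iff _).2 hu0
  have h7 : ∀ v ∈ (Finset.univ : Finset (InfinitePlace M)), v u ^ v.mult ≠ 0 := fun v _ =>
    pow_ne_zero _ ((map_ne_zero v).2 hu0)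
  have h8 := congrArg Real.log h1
  rw [Real.log_mul (Finset.prod_ne_zero_iff.2 h7) (Finset.prod_ne_zero_iff.2 h6), Real.log_one,
    Real.log_prod h7, Real.log_prod h6] at h8
  rw [add_comm]
  rw [← h8]
  congr 1
  refine Finset.sum_congr rfl fun v _ => ?_
  rw [Real.log_pow]
  rfl

/-- the vector of logarithms -/
theorem unt_mem {u : M} (hu : IsUnt T u) : (fun w => ((-logv u w : ℝ) : ℂ)) ∈ XS T := by
  refine ⟨fun w hw => ?_, ?_⟩
  · change ((-Real.log (NumberField.HeightOneSpectrum.adicAbv M w u) : ℝ) : ℂ) = 0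
    rw [hu.2 w hw, Real.log_one, neg_zero, Complex.ofReal_zero]
  · have h := unt_sum hu
    have h1 : ((∑ w ∈ T, -logv u (.inl w) + ∑ v : InfinitePlace M, -logv u (.inr v) : ℝ) : ℂ) = 0 := by
      rw [Finset.sum_neg_distrib, Finset.sum_neg_distrib, ← neg_add, h, neg_zero,
        Complex.ofReal_zero]
    push_cast at h1
    push_cast
    exact h1

variable {F : Type} [Field F] [NumberField F] [Algebra F M]

theorem prj_log (hT : Stable F T) (χ : (M ≃ₐ[F] M) →* ℂˣ) {x : XC T} {m : ℕ} {u : M}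
    (hm : ∀ w, (m : ℂ) * x.fn w = ((-logv u w : ℝ) : ℂ)) (v : Pl M) :
    (m : ℂ) * (prj hT (cf χ) x).fn v = -ell χ u v := by
  rw [prj_fn, Finset.mul_sum]
  unfold ell
  rw [← Finset.sum_neg_distrib]
  refine Finset.sum_congr rfl fun g _ => ?_
  have h1 : logv u (pact g⁻¹ v) = logv (g u) v := by
    rw [← logv_pact g (pact g⁻¹ v) u, pact_pact_inv]
  rw [← mul_assoc, mul_comm (m : ℂ), mul_assoc, hm, h1]
  push_cast
  unfold cf
  ring

end unit

section det

theorem det_of_equiv {V ι : Type} [AddCommGroup V] [Module ℂ V] [Fintype ι] [DecidableEq ι]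
    (E : V ≃ₗ[ℂ] (ι → ℂ)) (L : V →ₗ[ℂ] V) (A : Matrix ι ι ℂ)
    (h : ∀ x, E (L x) = A.mulVec (E x)) : LinearMap.det L = A.det := by
  rw [← LinearMap.det_conj L E, ← LinearMap.det_toLin' A]
  congr 1
  refine LinearMap.ext fun y => ?_
  rw [Matrix.toLin'_apply]
  have h1 := h (E.symm y)
  rw [E.apply_symm_apply] at h1
  exact h1

end det

section onedim
variable {G : Type} [Group G]

theorem rep_one_dim (ρ : Representation ℂ G (Fin 1 → ℂ)) (g : G) (x : Fin 1 → ℂ) :
    ρ g x = ρ.character g • x := by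
  have h1 : ρ.character g = LinearMap.toMatrix' (ρ g) 0 0 := by
    change LinearMap.trace ℂ (Fin 1 → ℂ) (ρ g) = _
    rw [LinearMap.trace_eq_matrix_trace ℂ (Pi.basisFun ℂ (Fin 1)), LinearMap.toMatrix_eq_toMatrix',
      Matrix.trace_fin_one]
  have h2 : ρ g x = (LinearMap.toMatrix' (ρ g)).mulVec x := by
    rw [← Matrix.toLin'_apply, Matrix.toLin'_toMatrix']
  rw [h2, h1]
  funext i
  obtain rfl : i = 0 := Subsingleton.elim _ _
  rw [Matrix.mulVec, dotProduct, Fin.sum_univ_one]
  rfl

end onedim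

end Pool.Agent.Q176.SI
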