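import Pool.Agent.Q20.SI.Stm4
import Pool.Agent.Q176.SI.Reg

/-!
# The regulator of the trivial character is a determinant of logarithms of units
-/

set_option autoImplicit false
set_option linter.unusedSectionVars false

namespace Pool.Agent.Q176.SI

open NumberField IsDedekindDomain Pool.Agent.Q20.RS Pool.Agent.Q20.SI
open Representation (IntertwiningMap)

section triv
variable {M : Type} [Field M] [NumberField M] {T : Finset (HeightOneSpectrum (𝓞 M))}

/-- representatives of all orbits but the one of `v₀` -/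
structure RepT (F : Type) [Field F] [NumberField F] [Algebra F M]
    (T : Finset (HeightOneSpectrum (𝓞 M))) {ι : Type} (w : ι → Pl M) (v₀ : Pl M) : Prop where
  mem0 : InPl T v₀
  mem : ∀ i, InPl T (w i)
  ne : ∀ i, ∀ g : M ≃ₐ[F] M, pact g (w i) ≠ v₀
  inj : ∀ (i j : ι) (g : M ≃ₐ[F] M), pact g (w i) = w j → i = j
  cover : ∀ v, InPl T v → (∃ g : M ≃ₐ[F] M, pact g v₀ = v) ∨
    ∃ i, ∃ g : M ≃ₐ[F] M, pact g (w i) = v

open scoped Classical in
theorem tot_ind {w : Pl M} (hw : InPl T w) : tot T (fun v => if v = w then (1 : ℂ) else 0) = 1 := by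
  rw [tot_apply]
  rcases w with P | v
  · have hP : P ∈ T := hw
    have h1 : ∀ w : HeightOneSpectrum (𝓞 M), (if (Sum.inl w : Pl M) = .inl P then (1 : ℂ) else 0) =
        if w = P then 1 else 0 := fun w => if_congr Sum.inl_injective.eq_iff rfl rfl
    have h2 : ∀ v : InfinitePlace M, (if (Sum.inr v : Pl M) = .inl P then (1 : ℂ) else 0) = 0 :=
      fun v => if_neg Sum.inr_ne_inl
    rw [Finset.sum_congr rfl fun w _ => h1 w, Finset.sum_congr rfl fun v _ => h2 v,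
      Finset.sum_const_zero, add_zero, Finset.sum_ite_eq', if_pos hP]
  · have h1 : ∀ w : InfinitePlace M, (if (Sum.inr w : Pl M) = .inr v then (1 : ℂ) else 0) =
        if w = v then 1 else 0 := fun w => if_congr Sum.inr_injective.eq_iff rfl rfl
    have h2 : ∀ w : HeightOneSpectrum (𝓞 M), (if (Sum.inl w : Pl M) = .inr v then (1 : ℂ) else 0) = 0 :=
      fun v => if_neg Sum.inl_ne_inr
    rw [Finset.sum_congr rfl fun w _ => h2 w, Finset.sum_congr rfl fun v _ => h1 v,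
      Finset.sum_const_zero, zero_add, Finset.sum_ite_eq', if_pos (Finset.mem_univ _)]

open scoped Classical in
/-- `[w] - [v]` -/
noncomputable def zfn (w v₀ : Pl M) (v : Pl M) : ℂ :=
  (if v = w then 1 else 0) - (if v = v₀ then 1 else 0)

theorem zfn_mem {w v₀ : Pl M} (hw : InPl T w) (hv : InPl T v₀) : zfn w v₀ ∈ XS T := by
  classical
  refine ⟨fun P hP => ?_, ?_⟩
  · have h2 : ¬ (.inl P : Pl M) = w := by
      intro h
      rw [← h] at hw
      exact hP hw
    have h3 : ¬ (.inl P : Pl M) = v₀ := by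
      intro h
      rw [← h] at hv
      exact hP hv
    unfold zfn
    rw [if_neg h2, if_neg h3, sub_zero]
  · have h1 : zfn w v₀ = (fun v => if v = w then (1 : ℂ) else 0) -
        (fun v => if v = v₀ then (1 : ℂ) else 0) := rfl
    change tot T (zfn w v₀) = 0
    rw [h1, map_sub, tot_ind hw, tot_ind hv, sub_self]

/-- `[w] - [v₀]` -/
noncomputable def zv {w v₀ : Pl M} (hw : InPl T w) (hv : InPl T v₀) : XC T :=
  ⟨zfn w v₀, zfn_mem hw hv⟩

theorem zv_fn {w v₀ : Pl M} (hw : InPl T w) (hv : InPl T v₀) (v : Pl M) :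
    (zv hw hv).fn v = zfn w v₀ v := rfl

theorem zv_rational {w v₀ : Pl M} (hw : InPl T w) (hv : InPl T v₀) : Rational (zv hw hv) := by
  classical
  intro v
  refine ⟨(if v = w then 1 else 0) - (if v = v₀ then 1 else 0), ?_⟩
  rw [zv_fn]
  unfold zfn
  have h1 : ∀ (p : Prop) [Decidable p], ((if p then 1 else 0 : ℚ) : ℂ) = if p then 1 else 0 := by
    intro p _
    split_ifs <;> norm_num
  push_cast
  simp only [h1]

variable {F : Type} [Field F] [NumberField F] [Algebra F M]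

theorem cf_triv (g : M ≃ₐ[F] M) : cf (1 : (M ≃ₐ[F] M) →* ℂˣ) g = 1 := by
  unfold cf
  rw [MonoidHom.one_apply, Units.val_one]

theorem orb_count (h : M ≃ₐ[F] M) (v₀ : Pl M) :
    (open scoped Classical in ∑ g : M ≃ₐ[F] M, if pact g⁻¹ (pact h v₀) = v₀ then (1 : ℂ) else 0) =
      stb F v₀ := by
  classical
  unfold stb
  rw [Finset.card_filter]
  push_cast
  symm
  refine Finset.sum_equiv (Equiv.mulLeft h) (fun _ => by simp) fun g _ => ?_
  have h1 : pact ((Equiv.mulLeft h g)⁻¹) (pact h v₀) = pact g⁻¹ v₀ := by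
    rw [← pact_mul]
    congr 1
    change (h * g)⁻¹ * h = g⁻¹
    group
  rw [h1]

theorem RepT.zero_of {hT : Stable F T} {x : XC T}
    (hx : Eig hT (1 : (M ≃ₐ[F] M) →* ℂˣ) x)
    {ι : Type} {w : ι → Pl M} {v₀ : Pl M} (hw : RepT F T w v₀) (h0 : ∀ i, x.fn (w i) = 0) :
    x = 0 := by
  classical
  have hfn : ∀ (h : M ≃ₐ[F] M) (v : Pl M), x.fn (pact h v) = x.fn v := by
    intro h v
    rw [hx.fn h v, cf_triv, one_mul]
  have key : ∀ v, (stb F v₀ : ℂ) * x.fn v = x.fn v₀ *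
      ∑ g : M ≃ₐ[F] M, (if pact g⁻¹ v = v₀ then (1 : ℂ) else 0) := by
    intro v
    by_cases hv : ∃ g : M ≃ₐ[F] M, pact g v₀ = v
    · obtain ⟨h, rfl⟩ := hv
      rw [hfn, orb_count, mul_comm]
    · have h1 : ∑ g : M ≃ₐ[F] M, (if pact g⁻¹ v = v₀ then (1 : ℂ) else 0) = 0 := by
        refine Finset.sum_eq_zero fun g _ => if_neg fun h => hv ⟨g, ?_⟩
        rw [← h, pact_pact_inv]
      have h2 : x.fn v = 0 := by
        by_cases hP : InPl T v
        · rcases hw.cover v hP with h | ⟨i, g, rfl⟩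
          · exact absurd h hv
          · rw [hfn, h0]
        · exact fn_out x hP
      rw [h1, h2, mul_zero, mul_zero]
  have h3 : tot T x.fn = 0 := x.2.2
  have h4 : tot T ((stb F v₀ : ℂ) • x.fn) = tot T (x.fn v₀ • ∑ g : M ≃ₐ[F] M,
      (fun v => (fun v => if v = v₀ then (1 : ℂ) else 0) (pact g⁻¹ v))) := by
    congr 1
    funext v
    rw [Pi.smul_apply, smul_eq_mul, key v, Pi.smul_apply, smul_eq_mul, Finset.sum_apply]
  have h5 : ∀ g : M ≃ₐ[F] M, tot T (fun v => (fun v => if v = v₀ then (1 : ℂ) else 0) (pact g⁻¹ v)) =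
      1 := fun g => (tot_act hT g (fun v => if v = v₀ then (1 : ℂ) else 0)).trans (tot_ind hw.mem0)
  rw [map_smul, h3, smul_zero, map_smul, map_sum, Finset.sum_congr rfl fun g _ => h5 g,
    Finset.sum_const, Finset.card_univ, nsmul_eq_mul, mul_one, smul_eq_mul] at h4
  have h6 : x.fn v₀ = 0 := (mul_eq_zero.1 h4.symm).resolve_right (card_ne (F := F) (M := M))
  refine xc_ext fun v => ?_
  rw [fn_zero]
  have h7 := key v
  rw [h6, zero_mul] at h7
  exact (mul_eq_zero.1 h7).resolve_left (stb_ne v₀)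

theorem prj_zv (hT : Stable F T) {ι : Type} [DecidableEq ι] {w : ι → Pl M} {v₀ : Pl M}
    (hw : RepT F T w v₀) (i j : ι) :
    (prj hT (cf (1 : (M ≃ₐ[F] M) →* ℂˣ)) (zv (hw.mem j) hw.mem0)).fn (w i) =
      if i = j then (stb F (w i) : ℂ) else 0 := by
  classical
  rw [prj_fn]
  have h2 : ∀ g : M ≃ₐ[F] M, cf (1 : (M ≃ₐ[F] M) →* ℂˣ) g * (zv (hw.mem j) hw.mem0).fn (pact g⁻¹ (w i)) =
      if pact g⁻¹ (w i) = w j then 1 else 0 := by
    intro g
    rw [zv_fn, cf_triv, one_mul]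
    unfold zfn
    rw [if_neg (hw.ne i g⁻¹), sub_zero]
  rw [Finset.sum_congr rfl fun g _ => h2 g]
  split_ifs with hij
  · subst hij
    unfold stb
    rw [Finset.card_filter]
    push_cast
    rfl
  · exact Finset.sum_eq_zero fun g _ => if_neg fun h => hij (hw.inj i j g⁻¹ h)

/-- the value of an invariant vector is a combination of the values of the basis -/
theorem RepT.expand {hT : Stable F T} {x : XC T} (hx : Eig hT (1 : (M ≃ₐ[F] M) →* ℂˣ) x) {ι : Type}
    [Fintype ι] [DecidableEq ι] {w : ι → Pl M} {v₀ : Pl M} (hw : RepT F T w v₀) :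
    x = ∑ j, ((stb F (w j) : ℂ)⁻¹ * x.fn (w j)) •
      prj hT (cf (1 : (M ≃ₐ[F] M) →* ℂˣ)) (zv (hw.mem j) hw.mem0) := by
  rw [← sub_eq_zero]
  have h1 : Eig hT (1 : (M ≃ₐ[F] M) →* ℂˣ) (x - ∑ j, ((stb F (w j) : ℂ)⁻¹ * x.fn (w j)) •
      prj hT (cf (1 : (M ≃ₐ[F] M) →* ℂˣ)) (zv (hw.mem j) hw.mem0)) := by
    intro h
    rw [map_sub, hx h, map_sum, smul_sub, Finset.smul_sum]
    congr 1
    refine Finset.sum_congr rfl fun j _ => ?_
    rw [map_smul, prj_eig, smul_comm]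
  refine RepT.zero_of h1 hw fun i => ?_
  rw [sub_eq_add_neg, fn_add, ← neg_one_smul ℂ, fn_smul, fn_sum]
  have h2 : ∀ j, (((stb F (w j) : ℂ)⁻¹ * x.fn (w j)) •
      prj hT (cf (1 : (M ≃ₐ[F] M) →* ℂˣ)) (zv (hw.mem j) hw.mem0)).fn (w i) =
        if i = j then x.fn (w i) else 0 := by
    intro j
    rw [fn_smul, prj_zv hT hw]
    split_ifs with hij
    · subst hij
      rw [mul_comm, ← mul_assoc, mul_inv_cancel₀ (stb_ne _), one_mul]
    · rw [mul_zero]
  rw [Finset.sum_congr rfl fun j _ => h2 j, Finset.sum_ite_eq, if_pos (Finset.mem_univ _)]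
  ring

theorem evl_bijT (hT : Stable F T)
    (ρ : Representation ℂ (M ≃ₐ[F] M) (Fin 1 → ℂ))
    (hρ : ∀ g, ρ.character g = cf (1 : (M ≃ₐ[F] M) →* ℂˣ) g) {ι : Type}
    [Fintype ι] [DecidableEq ι] {w : ι → Pl M} {v₀ : Pl M} (hw : RepT F T w v₀) :
    Function.Bijective (evl hT ρ w) := by
  constructor
  · rw [injective_iff_map_eq_zero]
    intro f hf
    have h1 : (IntertwiningMap.toLinearMap f eps : XC T) = 0 :=
      RepT.zero_of (homd_eig hT ρ hρ f) hw fun i => congrFun hf i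
    refine IntertwiningMap.toLinearMap_injective _ _ (LinearMap.ext fun φ => ?_)
    change IntertwiningMap.toLinearMap f φ = 0
    rw [dual_eq φ, map_smul, h1, smul_zero]
  · intro y
    have hx : Eig hT (1 : (M ≃ₐ[F] M) →* ℂˣ) (∑ j, ((stb F (w j) : ℂ)⁻¹ * y j) •
        prj hT (cf (1 : (M ≃ₐ[F] M) →* ℂˣ)) (zv (hw.mem j) hw.mem0)) := by
      intro h
      rw [map_sum, Finset.smul_sum]
      refine Finset.sum_congr rfl fun j _ => ?_
      rw [map_smul, prj_eig, smul_comm]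
    refine ⟨homdOf hT ρ hρ _ hx, funext fun i => ?_⟩
    change (homdOf hT ρ hρ _ hx eps).fn (w i) = y i
    rw [homdOf_eps, fn_sum]
    have h2 : ∀ j, (((stb F (w j) : ℂ)⁻¹ * y j) •
        prj hT (cf (1 : (M ≃ₐ[F] M) →* ℂˣ)) (zv (hw.mem j) hw.mem0)).fn (w i) =
          if i = j then y i else 0 := by
      intro j
      rw [fn_smul, prj_zv hT hw]
      split_ifs with hij
      · subst hij
        rw [mul_comm, ← mul_assoc, mul_inv_cancel₀ (stb_ne _), one_mul]
      · rw [mul_zero]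
    rw [Finset.sum_congr rfl fun j _ => h2 j, Finset.sum_ite_eq, if_pos (Finset.mem_univ _)]

/-- a Stark map in the coordinates given by the values at the representatives -/
theorem theta_valT (hT : Stable F T) (θ : IntertwiningMap (XRep hT) (XRep hT))
    {ι : Type} [Fintype ι] [DecidableEq ι]
    {w : ι → Pl M} {v₀ : Pl M} (hw : RepT F T w v₀) (m : ι → ℕ) (hm : ∀ j, 0 < m j) (α : ι → M)
    (hα : ∀ j v, (m j : ℂ) * (θ (zv (hw.mem j) hw.mem0)).fn v = ((-logv (α j) v : ℝ) : ℂ))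
    {x : XC T} (hx : Eig hT (1 : (M ≃ₐ[F] M) →* ℂˣ) x) (i : ι) :
    (θ x).fn (w i) = ∑ j, (-((stb F (w j) : ℂ) * (m j : ℂ))⁻¹ *
      ell (1 : (M ≃ₐ[F] M) →* ℂˣ) (α j) (w i)) * x.fn (w j) := by
  have h1 := RepT.expand hx hw
  have h2 : θ x = ∑ j, ((stb F (w j) : ℂ)⁻¹ * x.fn (w j)) •
      prj hT (cf (1 : (M ≃ₐ[F] M) →* ℂˣ)) (θ (zv (hw.mem j) hw.mem0)) := by
    conv_lhs => rw [h1]
    rw [map_sum]
    refine Finset.sum_congr rfl fun j _ => ?_
    rw [map_smul, prj_map]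
  rw [h2, fn_sum]
  refine Finset.sum_congr rfl fun j _ => ?_
  have h3 := prj_log hT (1 : (M ≃ₐ[F] M) →* ℂˣ) (hα j) (w i)
  have h4 : (m j : ℂ) ≠ 0 := by exact_mod_cast (hm j).ne'
  have h5 : (prj hT (cf (1 : (M ≃ₐ[F] M) →* ℂˣ)) (θ (zv (hw.mem j) hw.mem0))).fn (w i) =
      (m j : ℂ)⁻¹ * -ell (1 : (M ≃ₐ[F] M) →* ℂˣ) (α j) (w i) := by
    rw [← h3, ← mul_assoc, inv_mul_cancel₀ h4, one_mul]
  rw [fn_smul, h5, mul_inv]
  ring

end triv

theorem rgt : S_RGT := by
  intro F M _ _ _ _ _ _ T hT θ ι _ _ w v₀ hm0 hmem hne hinj hcov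
  have hw : RepT F T w v₀ := ⟨hm0, hmem, hne, hinj, hcov⟩
  have h1 : ∀ j, LogUnit (θ.map (zv (hw.mem j) hw.mem0)) := fun j =>
    (θ.rational _).1 (zv_rational _ _)
  choose m hm α hα0 hα1 hα2 using h1
  refine ⟨∏ j, -((stb F (w j) : ℚ) * (m j : ℚ))⁻¹, α, ?_, fun j => ⟨hα0 j, hα1 j⟩, ?_⟩
  · refine Finset.prod_ne_zero_iff.2 fun j _ => neg_ne_zero.2 (inv_ne_zero (mul_ne_zero ?_ ?_))
    · exact_mod_cast (stb_pos (F := F) (w j)).ne'
    · exact_mod_cast (hm j).ne'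
  · intro n ρ hρ
    have hn : n = 1 := by
      have h2 := hρ 1
      rw [Representation.char_one, Module.finrank_fin_fun] at h2
      exact_mod_cast h2
    subst hn
    have hρ' : ∀ g, ρ.character g = cf (1 : (M ≃ₐ[F] M) →* ℂˣ) g := fun g => by
      rw [hρ, cf_triv]
    have h4 : regul ρ (XRep hT) θ.map = (Matrix.of fun i j =>
        -((stb F (w j) : ℂ) * (m j : ℂ))⁻¹ * ell (1 : (M ≃ₐ[F] M) →* ℂˣ) (α j) (w i) :
          Matrix ι ι ℂ).det := by
      unfold regul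
      refine det_of_equiv (LinearEquiv.ofBijective (evl hT ρ w) (evl_bijT hT ρ hρ' hw)) _ _ ?_
      intro f
      funext i
      exact theta_valT hT θ.map hw m hm α hα2 (homd_eig hT ρ hρ' f) i
    have h5 : (Matrix.of fun i j => -((stb F (w j) : ℂ) * (m j : ℂ))⁻¹ *
        ell (1 : (M ≃ₐ[F] M) →* ℂˣ) (α j) (w i) : Matrix ι ι ℂ) =
          Matrix.of fun i j => (-((stb F (w j) : ℂ) * (m j : ℂ))⁻¹) *
            ellM (1 : (M ≃ₐ[F] M) →* ℂˣ) α w i j := rfl
    rw [h4, h5, Matrix.det_mul_row]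
    push_cast
    rfl

end Pool.Agent.Q176.SI
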